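import Pool.Agent.helper38.OB.Spec

/-!
# KIL: if the sum is small then some element has a low level
-/

set_option autoImplicit false

namespace Pool.Agent.OB

open Finset

theorem KIL (hBAS : BAS_stmt) : KIL_stmt := by
  classical
  intro h hodd h3 k x e l J he hx hk hlf
  by_contra hcon
  push Not at hcon
  -- monotonicity of `lo`
  have hmono : Monotone (lo h) := monotone_nat_of_le_succ (fun l => (hBAS h h3 l).2.2.2.1)
  -- the sum of the signs is not zero
  have hsum : ∑ i, e i ≠ 0 := by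
    intro h0
    have h1 : (2 : ℤ) ∣ ∑ i, (e i - 1) := by
      apply Finset.dvd_sum
      intro i _
      rcases he i with h2 | h2 <;> rw [h2] <;> norm_num
    rw [Finset.sum_sub_distrib, h0] at h1
    simp only [sum_const, card_univ, Fintype.card_fin, nsmul_eq_mul, mul_one, zero_sub, dvd_neg] at h1
    have h2 : 2 ∣ h := by exact_mod_cast h1
    obtain ⟨c, hc⟩ := hodd
    omega
  obtain ⟨j, hj⟩ : ∃ j, ∑ i ∈ univ.filter (fun i => k i = j), e i ≠ 0 := by
    by_contra h0
    push Not at h0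
    apply hsum
    rw [← Finset.sum_fiberwise_of_maps_to (g := k) (t := univ.image k)
      (fun i _ => Finset.mem_image_of_mem k (Finset.mem_univ i))]
    exact Finset.sum_eq_zero (fun j _ => h0 j)
  obtain ⟨i0, hi0⟩ : ∃ i0, k i0 = j := by
    by_contra h0
    push Not at h0
    apply hj
    rw [Finset.filter_eq_empty_iff.2 (fun i _ => h0 i)]
    simp
  have hMj : max (lo h l) J ≤ j := hi0 ▸ hcon i0
  have hjl : j ≤ l := hi0 ▸ hk i0
  have hloj : lo h l ≤ j := le_trans (le_max_left _ _) hMj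
  have hJj : J ≤ j := le_trans (le_max_right _ _) hMj
  -- numbers
  have hCpos : 0 < C0 h := by
    unfold C0
    positivity
  have hBpos : 0 < Bs h := by
    unfold Bs be
    positivity
  obtain ⟨c1, hc1, hc1p⟩ : ∃ c1, Bs h = C0 h * c1 ∧ 0 < c1 := by
    have h1 : C0 h ∣ Bs h := by
      unfold Bs be
      rw [← pow_mul]
      exact dvd_pow_self _ (by omega)
    obtain ⟨c1, hc1⟩ := h1
    refine ⟨c1, hc1, ?_⟩
    rcases Nat.eq_zero_or_pos c1 with h2 | h2
    · rw [h2] at hc1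
      omega
    · exact h2
  set p1 : ℕ := c1 * Bs h ^ j with hp1
  have hP : Bs h ^ (j + 1) = C0 h * p1 := by
    rw [pow_succ, hp1, ← mul_assoc, ← hc1]
    ring
  have hp1pos : 0 < p1 := by positivity
  have hPC : Bs h ^ (j + 1) / C0 h = p1 := by
    rw [hP]
    exact Nat.mul_div_cancel_left _ hCpos
  have hPT : Bs h ^ (j + 1) / (4 * h) = 4 * h * p1 := by
    rw [hP]
    have : C0 h * p1 = (4 * h) * (4 * h * p1) := by
      unfold C0
      ring
    rw [this]
    exact Nat.mul_div_cancel_left _ (by omega)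
  have hBj : Bs h ^ j ≤ p1 := Nat.le_mul_of_pos_left _ hc1p
  -- decomposition
  have hdec : ∀ i, ∃ q r : ℤ, (x i : ℤ) = (Bs h ^ (j + 1) : ℕ) * q + (if k i = j then (4 * h * p1 : ℕ) else 0) + r ∧
      0 ≤ r ∧ r ≤ p1 := by
    intro i
    have hxi := hx i
    unfold S at hxi
    rw [Finset.mem_filter, Finset.mem_range] at hxi
    obtain ⟨hx1, hx2, hx3, hx4⟩ := hxi
    rcases lt_trichotomy (k i) j with h1 | h1 | h1
    · refine ⟨0, x i, ?_, by positivity, ?_⟩
      · rw [if_neg (by omega)]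
        ring
      · have h2 : Bs h ^ (k i + 1) ≤ Bs h ^ j := Nat.pow_le_pow_right hBpos h1
        have h3 : x i ≤ p1 := by omega
        exact_mod_cast h3
    · rw [h1] at hx2 hx3
      rw [hPT] at hx2 hx3
      rw [hPC] at hx3
      refine ⟨0, (x i : ℤ) - (4 * h * p1 : ℕ), ?_, ?_, ?_⟩
      · rw [if_pos h1]
        ring
      · have : ((4 * h * p1 : ℕ) : ℤ) ≤ x i := by exact_mod_cast hx2
        linarith
      · have : (x i : ℤ) < ((4 * h * p1 + p1 : ℕ) : ℤ) := by exact_mod_cast hx3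
        push_cast at this ⊢
        linarith
    · refine ⟨(x i / Bs h ^ (j + 1) : ℕ), (x i % Bs h ^ (j + 1) : ℕ), ?_, by positivity, ?_⟩
      · rw [if_neg (by omega)]
        have := Nat.div_add_mod (x i) (Bs h ^ (j + 1))
        have h2 : (x i : ℤ) = ((Bs h ^ (j + 1) * (x i / Bs h ^ (j + 1)) + x i % Bs h ^ (j + 1) : ℕ) : ℤ) := by
          exact_mod_cast this.symm
        rw [h2, Nat.cast_add, Nat.cast_mul]
        ring
      · have h2 := hx4 j (le_trans (hmono (hk i)) hloj) h1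
        rw [hPC] at h2
        exact_mod_cast h2.le
  choose q r hqr hr0 hr1 using hdec
  set d : ℤ := ∑ i ∈ univ.filter (fun i => k i = j), e i with hd
  have hlfe : lf e x = (Bs h ^ (j + 1) : ℕ) * (∑ i, e i * q i) + d * (4 * h * p1 : ℕ) + ∑ i, e i * r i := by
    have h1 : d * (4 * h * p1 : ℕ) = ∑ i, e i * (if k i = j then ((4 * h * p1 : ℕ) : ℤ) else 0) := by
      rw [hd, Finset.sum_filter, Finset.sum_mul]
      apply Finset.sum_congr rfl
      intro i _
      split_ifs <;> ring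
    rw [h1, Finset.mul_sum, ← Finset.sum_add_distrib, ← Finset.sum_add_distrib]
    unfold lf
    apply Finset.sum_congr rfl
    intro i _
    rw [hqr i]
    push_cast
    ring
  have habs : ∀ i, |e i| = 1 := by
    intro i
    rcases he i with h2 | h2 <;> rw [h2] <;> norm_num
  have hR : |∑ i, e i * r i| ≤ h * p1 := by
    refine le_trans (Finset.abs_sum_le_sum_abs _ _) ?_
    have h1 : ∀ i ∈ (univ : Finset (Fin h)), |e i * r i| ≤ (p1 : ℤ) := by
      intro i _
      rw [abs_mul, habs i, one_mul, abs_of_nonneg (hr0 i)]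
      exact hr1 i
    refine le_trans (Finset.sum_le_sum h1) ?_
    simp
  have hdh : |d| ≤ h := by
    rw [hd]
    refine le_trans (Finset.abs_sum_le_sum_abs _ _) ?_
    simp only [habs]
    rw [Finset.sum_const, nsmul_eq_mul, mul_one]
    have : (univ.filter (fun i => k i = j)).card ≤ h := by
      have := Finset.card_le_univ (univ.filter (fun i => k i = j))
      rwa [Fintype.card_fin] at this
    exact_mod_cast this
  have hd1 : 1 ≤ |d| := Int.one_le_abs hj
  have hlf2 : |lf e x| ≤ p1 := by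
    refine le_trans hlf ?_
    have : Bs h ^ J ≤ p1 := le_trans (Nat.pow_le_pow_right hBpos hJj) hBj
    exact_mod_cast this
  have hPz : ((Bs h ^ (j + 1) : ℕ) : ℤ) = 16 * h ^ 2 * p1 := by
    rw [hP]
    unfold C0
    push_cast
    ring
  set Q : ℤ := ∑ i, e i * q i with hQ
  have hh3 : (3 : ℤ) ≤ h := by exact_mod_cast h3
  have hpz : (0 : ℤ) < p1 := by exact_mod_cast hp1pos
  rw [hPz] at hlfe
  push_cast at hlfe
  have hZ : |16 * (h : ℤ) ^ 2 * p1 * Q| ≤ (4 * (h : ℤ) ^ 2 + h + 1) * p1 := by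
    have h1 : 16 * (h : ℤ) ^ 2 * p1 * Q = lf e x - d * (4 * h * p1) - ∑ i, e i * r i := by
      rw [hlfe]
      ring
    rw [h1]
    have h2 : |d * (4 * (h : ℤ) * p1)| ≤ 4 * (h : ℤ) ^ 2 * p1 := by
      rw [abs_mul, abs_of_nonneg (show (0 : ℤ) ≤ 4 * h * p1 by positivity)]
      calc |d| * (4 * (h : ℤ) * p1) ≤ h * (4 * h * p1) := mul_le_mul_of_nonneg_right hdh (by positivity)
        _ = _ := by ring
    calc |lf e x - d * (4 * h * p1) - ∑ i, e i * r i|
        ≤ |lf e x - d * (4 * h * p1)| + |∑ i, e i * r i| := abs_sub _ _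
      _ ≤ |lf e x| + |d * (4 * (h : ℤ) * p1)| + |∑ i, e i * r i| := by
          gcongr
          exact abs_sub _ _
      _ ≤ p1 + 4 * (h : ℤ) ^ 2 * p1 + h * p1 := by linarith
      _ = _ := by ring
  have hQ0 : Q = 0 := by
    by_contra h1
    have h2 : 1 ≤ |Q| := Int.one_le_abs h1
    rw [abs_mul, abs_of_nonneg (show (0 : ℤ) ≤ 16 * h ^ 2 * p1 by positivity)] at hZ
    have h4 : 16 * (h : ℤ) ^ 2 * p1 ≤ 16 * (h : ℤ) ^ 2 * p1 * |Q| := by
      nlinarith [show (0 : ℤ) < 16 * (h : ℤ) ^ 2 * p1 by positivity]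
    have h5 : 16 * (h : ℤ) ^ 2 * p1 ≤ (4 * (h : ℤ) ^ 2 + h + 1) * p1 := h4.trans hZ
    have h6 : 16 * (h : ℤ) ^ 2 ≤ 4 * (h : ℤ) ^ 2 + h + 1 := le_of_mul_le_mul_right h5 hpz
    nlinarith
  rw [hQ0, mul_zero, zero_add] at hlfe
  have h7 : |d * (4 * (h : ℤ) * p1)| ≤ (h + 1) * p1 := by
    have h1 : d * (4 * (h : ℤ) * p1) = lf e x - ∑ i, e i * r i := by
      rw [hlfe]
      ring
    rw [h1]
    calc |lf e x - ∑ i, e i * r i| ≤ |lf e x| + |∑ i, e i * r i| := abs_sub _ _
      _ ≤ p1 + h * p1 := by linarith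
      _ = _ := by ring
  rw [abs_mul, abs_of_nonneg (show (0 : ℤ) ≤ 4 * h * p1 by positivity)] at h7
  have h8 : 4 * (h : ℤ) * p1 ≤ |d| * (4 * h * p1) := by
    nlinarith [show (0 : ℤ) < 4 * (h : ℤ) * p1 by positivity]
  have h9 : 4 * (h : ℤ) * p1 ≤ (h + 1) * p1 := h8.trans h7
  have h10 : 4 * (h : ℤ) ≤ h + 1 := le_of_mul_le_mul_right h9 hpz
  linarith

end Pool.Agent.OB
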